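import Pool.Agent.helper71.CL.Spec

/-!
# Project cl: module LIM
-/

set_option autoImplicit false

open MeasureTheory Set Filter Topology
open scoped ENNReal
open Pool.Agent.helper81.CW

noncomputable section

namespace Pool.Agent.CL

theorem LIM_root (K : ℝ) (hK : 0 < K) :
    Tendsto (fun n : ℕ => (K * (n : ℝ)) ^ (1 / (n : ℝ))) atTop (𝓝 1) := by
  have h0 : Tendsto (fun n : ℕ => 1 / (n : ℝ)) atTop (𝓝 0) := tendsto_one_div_atTop_nhds_zero_nat
  have h1 : Tendsto (fun n : ℕ => K ^ (1 / (n : ℝ))) atTop (𝓝 (K ^ (0 : ℝ))) :=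
    ((Real.continuous_const_rpow hK.ne').tendsto 0).comp h0
  have h2 : Tendsto (fun n : ℕ => (n : ℝ) ^ (1 / (n : ℝ))) atTop (𝓝 1) :=
    tendsto_rpow_div.comp tendsto_natCast_atTop_atTop
  have h3 := h1.mul h2
  rw [Real.rpow_zero, one_mul] at h3
  refine h3.congr fun n => ?_
  rw [Real.mul_rpow hK.le (Nat.cast_nonneg n)]

theorem LIM_quot (d : ℕ) (hd : 1 ≤ d) :
    Tendsto (fun n : ℕ => (((n - 1) / d : ℕ) : ℝ) / (n : ℝ)) atTop (𝓝 (1 / (d : ℝ))) := by
  have hdpos : (0 : ℝ) < d := by exact_mod_cast hd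
  have h0 : Tendsto (fun n : ℕ => 1 / (n : ℝ)) atTop (𝓝 0) := tendsto_one_div_atTop_nhds_zero_nat
  have h1 : Tendsto (fun n : ℕ => 1 / (d : ℝ) - 1 / (n : ℝ)) atTop (𝓝 (1 / (d : ℝ))) := by
    have := h0.const_sub (1 / (d : ℝ))
    rwa [sub_zero] at this
  refine tendsto_of_tendsto_of_tendsto_of_le_of_le' h1 tendsto_const_nhds ?_ ?_
  · filter_upwards [eventually_ge_atTop 1] with n hn
    have hnpos : (0 : ℝ) < n := by exact_mod_cast hn
    have h2 : n ≤ ((n - 1) / d) * d + d := by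
      have h3 := Nat.div_add_mod (n - 1) d
      have h4 := Nat.mod_lt (n - 1) (show 0 < d by omega)
      have h5 : d * ((n - 1) / d) = ((n - 1) / d) * d := mul_comm _ _
      omega
    have h3 : (n : ℝ) ≤ (((n - 1) / d : ℕ) : ℝ) * d + d := by exact_mod_cast h2
    rw [div_sub_div _ _ hdpos.ne' hnpos.ne', div_le_div_iff₀ (mul_pos hdpos hnpos) hnpos]
    nlinarith
  · filter_upwards [eventually_ge_atTop 1] with n hn
    have hnpos : (0 : ℝ) < n := by exact_mod_cast hn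
    have h2 : ((n - 1) / d) * d ≤ n := (Nat.div_mul_le_self _ _).trans (Nat.sub_le _ _)
    have h3 : (((n - 1) / d : ℕ) : ℝ) * d ≤ n := by exact_mod_cast h2
    rw [div_le_div_iff₀ hnpos hdpos]
    linarith

theorem LIM : LIM_stmt := by
  intro f c hc hf hm hs
  set A : ℕ → ℝ := fun d => 8 * √(d : ℝ) * f d with hA
  have hs1 : ∀ d : ℕ, 1 ≤ d → 1 ≤ √(d : ℝ) := fun d hd => by
    rw [Real.one_le_sqrt]; exact_mod_cast hd
  have hsn : ∀ d : ℕ, 1 ≤ d → √(d : ℝ) ≤ d := fun d hd => by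
    have h1 : (1 : ℝ) ≤ d := by exact_mod_cast hd
    rw [Real.sqrt_le_left (by linarith)]
    nlinarith
  have hApos : ∀ d : ℕ, 1 ≤ d → 0 < A d := fun d hd => by
    have h1 := hs1 d hd
    have h2 := (hf d hd).1
    show 0 < 8 * √(d : ℝ) * f d
    positivity
  have hAf : ∀ d : ℕ, 1 ≤ d → f d ≤ A d := fun d hd => by
    have h1 := hs1 d hd
    have h2 := (hf d hd).1
    show f d ≤ 8 * √(d : ℝ) * f d
    nlinarith
  set g : ℕ → ℝ := fun d => A d ^ (1 / (d : ℝ)) with hg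
  have hgc : ∀ d : ℕ, 1 ≤ d → c ≤ g d := fun d hd => by
    have h1 : c ^ d ≤ A d := ((hf d hd).2.2).trans (hAf d hd)
    have h2 : c = (c ^ d) ^ (1 / (d : ℝ)) := by
      rw [one_div, Real.pow_rpow_inv_natCast hc.le (by omega)]
    rw [h2]
    exact Real.rpow_le_rpow (pow_nonneg hc.le _) h1 (by positivity)
  have hgd : ∀ d : ℕ, 1 ≤ d → g d ^ d = A d := fun d hd => by
    show (A d ^ (1 / (d : ℝ))) ^ d = A d
    rw [one_div, Real.rpow_inv_natCast_pow (hApos d hd).le (by omega)]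
  set β : ℝ := ⨅ d : ℕ, g (d + 1) with hβ
  have hbdd : BddBelow (Set.range fun d : ℕ => g (d + 1)) :=
    ⟨c, by rintro _ ⟨d, rfl⟩; exact hgc (d + 1) (by omega)⟩
  have hcβ : c ≤ β := le_ciInf fun d => hgc (d + 1) (by omega)
  have hβ0 : 0 < β := hc.trans_le hcβ
  have hβg : ∀ d : ℕ, 1 ≤ d → β ≤ g d := fun d hd => by
    obtain ⟨e, rfl⟩ : ∃ e, d = e + 1 := ⟨d - 1, by omega⟩
    exact ciInf_le hbdd e
  have hβA : ∀ d : ℕ, 1 ≤ d → β ^ d ≤ A d := fun d hd => by
    rw [← hgd d hd]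
    exact pow_le_pow_left₀ hβ0.le (hβg d hd) d
  refine ⟨β, hcβ, ?_, hβA⟩
  -- the lower bound
  have hlow : Tendsto (fun n : ℕ => β / (8 * (n : ℝ)) ^ (1 / (n : ℝ))) atTop (𝓝 β) := by
    have h1 := (tendsto_const_nhds (x := β) (f := (atTop : Filter ℕ))).div
      (LIM_root 8 (by norm_num)) one_ne_zero
    rwa [div_one] at h1
  have hlow2 : ∀ n : ℕ, 1 ≤ n → β / (8 * (n : ℝ)) ^ (1 / (n : ℝ)) ≤ f n ^ (1 / (n : ℝ)) := by
    intro n hn
    have hnpos : (0 : ℝ) < n := by exact_mod_cast hn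
    have h1 : β ^ n ≤ 8 * (n : ℝ) * f n := by
      refine (hβA n hn).trans ?_
      show 8 * √(n : ℝ) * f n ≤ 8 * (n : ℝ) * f n
      have h2 := hsn n hn
      have h3 := (hf n hn).1
      nlinarith
    rw [div_le_iff₀ (by positivity), mul_comm (f n ^ _),
      ← Real.mul_rpow (by positivity) (hf n hn).1.le]
    have h2 : β = (β ^ n) ^ (1 / (n : ℝ)) := by
      rw [one_div, Real.pow_rpow_inv_natCast hβ0.le (by omega)]
    rw [h2]
    exact Real.rpow_le_rpow (pow_nonneg hβ0.le _) h1 (by positivity)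
  -- the upper bound
  have hup : ∀ d : ℕ, 1 ≤ d → Tendsto (fun n : ℕ => (64 * (n : ℝ)) ^ (1 / (n : ℝ)) *
      A d ^ ((((n - 1) / d : ℕ) : ℝ) / (n : ℝ))) atTop (𝓝 (g d)) := by
    intro d hd
    have h1 : Tendsto (fun n : ℕ => A d ^ ((((n - 1) / d : ℕ) : ℝ) / (n : ℝ))) atTop
        (𝓝 (A d ^ (1 / (d : ℝ)))) :=
      ((Real.continuous_const_rpow (hApos d hd).ne').tendsto (1 / (d : ℝ))).comp (LIM_quot d hd)
    have h2 := (LIM_root 64 (by norm_num)).mul h1
    rwa [one_mul] at h2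
  have hup2 : ∀ d : ℕ, 1 ≤ d → ∀ n : ℕ, d < n → f n ^ (1 / (n : ℝ)) ≤
      (64 * (n : ℝ)) ^ (1 / (n : ℝ)) * A d ^ ((((n - 1) / d : ℕ) : ℝ) / (n : ℝ)) := by
    intro d hd n hn
    have hnpos : (0 : ℝ) < n := by
      have : 0 < n := by omega
      exact_mod_cast this
    set m : ℕ := (n - 1) / d with hm0
    set r : ℕ := (n - 1) % d + 1 with hr0
    have hmr : m * d + r = n := by
      have h3 := Nat.div_add_mod (n - 1) d
      have h5 : d * ((n - 1) / d) = m * d := by rw [hm0, mul_comm]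
      omega
    have hm1 : 1 ≤ m := by
      rw [hm0, Nat.one_le_div_iff (by omega)]; omega
    have hr1 : 1 ≤ r := by omega
    have hmd1 : 1 ≤ m * d := Nat.one_le_iff_ne_zero.2 (by positivity)
    have h1 := hs (m * d) r hmd1 hr1
    rw [hmr] at h1
    have h2 := hm d m hd hm1
    have h3 : √((m * d : ℕ) : ℝ) * √(r : ℝ) ≤ n := by
      have h4 : √((m * d : ℕ) : ℝ) ≤ √(n : ℝ) := Real.sqrt_le_sqrt (by
        have : m * d ≤ n := by omega
        exact_mod_cast this)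
      have h5 : √(r : ℝ) ≤ √(n : ℝ) := Real.sqrt_le_sqrt (by
        have : r ≤ n := by omega
        exact_mod_cast this)
      calc √((m * d : ℕ) : ℝ) * √(r : ℝ) ≤ √(n : ℝ) * √(n : ℝ) :=
            mul_le_mul h4 h5 (Real.sqrt_nonneg _) (Real.sqrt_nonneg _)
        _ = n := Real.mul_self_sqrt hnpos.le
    have h4 : f (m * d) * f r ≤ A d ^ m := by
      calc f (m * d) * f r ≤ f (m * d) * 1 :=
            mul_le_mul_of_nonneg_left (hf r hr1).2.1 (hf _ hmd1).1.le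
        _ = f (m * d) := mul_one _
        _ ≤ A d ^ m := h2
    have h5 : f n ≤ 64 * (n : ℝ) * A d ^ m := by
      calc f n ≤ 64 * √((m * d : ℕ) : ℝ) * √(r : ℝ) * (f (m * d) * f r) := h1
        _ = 64 * ((√((m * d : ℕ) : ℝ) * √(r : ℝ)) * (f (m * d) * f r)) := by ring
        _ ≤ 64 * ((n : ℝ) * A d ^ m) := by
            refine mul_le_mul_of_nonneg_left ?_ (by norm_num)
            exact mul_le_mul h3 h4 (mul_nonneg (hf _ hmd1).1.le (hf _ hr1).1.le) hnpos.le
        _ = 64 * (n : ℝ) * A d ^ m := by ring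
    have h6 : A d ^ ((m : ℝ) / (n : ℝ)) = (A d ^ m) ^ (1 / (n : ℝ)) := by
      rw [← Real.rpow_natCast (A d) m, ← Real.rpow_mul (hApos d hd).le, mul_one_div]
    rw [h6, ← Real.mul_rpow (by positivity) (pow_nonneg (hApos d hd).le _)]
    exact Real.rpow_le_rpow (hf n (by omega)).1.le h5 (by positivity)
  rw [tendsto_order]
  constructor
  · intro a ha
    have h1 := (tendsto_order.1 hlow).1 a ha
    filter_upwards [h1, eventually_ge_atTop 1] with n hn hn1
    exact hn.trans_le (hlow2 n hn1)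
  · intro a ha
    obtain ⟨e, he⟩ := exists_lt_of_ciInf_lt ha
    have h1 := (tendsto_order.1 (hup (e + 1) (by omega))).2 a he
    filter_upwards [h1, eventually_gt_atTop (e + 1)] with n hn hn1
    exact (hup2 (e + 1) (by omega) n hn1).trans_lt hn

end Pool.Agent.CL
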