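import Pool.Agent.helper47.CL.SpecD

set_option autoImplicit false

namespace Pool.Agent.helper41.CL

open Finset

theorem ZL (h1 : ZD_stmt) : ZL_stmt := by
  intro α _ V E x a hG hL
  obtain ⟨hne, hxa, hx, hdeg⟩ := hL
  have hsub : ({x, a} : Finset α) ⊆ V := (hG _ hxa).1
  have hxV : x ∈ V := hsub (by simp)
  have hav : ∀ (S : Finset α) (e : Finset α), e ∈ av E S ↔ e ∈ E ∧ Disjoint e S := by
    intro S e
    unfold av
    exact mem_filter
  refine ⟨?_, ?_, ?_, ?_, ?_, ?_, ?_⟩
  · intro e he
    obtain ⟨heE, hd⟩ := (hav _ _).1 he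
    refine ⟨fun v hv => ?_, (hG e heE).2⟩
    exact mem_sdiff.2 ⟨(hG e heE).1 hv, fun h => (disjoint_left.1 hd) hv h⟩
  · intro e he
    obtain ⟨heE, hd⟩ := (hav _ _).1 he
    refine ⟨fun v hv => ?_, (hG e heE).2⟩
    refine mem_erase.2 ⟨?_, (hG e heE).1 hv⟩
    rintro rfl
    exact (disjoint_left.1 hd) hv (by simp)
  · have h2 := card_sdiff_add_card_eq_card hsub
    rw [card_pair hne] at h2
    exact h2
  · exact card_erase_add_one hxV
  · have hdis : Disjoint (av E {x, a}) (inc E a) := by
      rw [disjoint_left]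
      intro e he he2
      obtain ⟨-, hd⟩ := (hav _ _).1 he
      have ha : a ∈ e := (mem_filter.1 he2).2
      exact (disjoint_left.1 hd) ha (by simp)
    have hsubE : av E {x, a} ∪ inc E a ⊆ E := by
      intro e he
      rcases mem_union.1 he with h | h
      · exact ((hav _ _).1 h).1
      · exact (mem_filter.1 h).1
    have h3 := card_le_card hsubE
    rw [card_union_of_disjoint hdis] at h3
    omega
  · have h4 : av E {x} = E.erase {x, a} := by
      ext e
      rw [hav, mem_erase]
      constructor
      · rintro ⟨heE, hd⟩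
        refine ⟨?_, heE⟩
        rintro rfl
        exact (disjoint_left.1 hd) (by simp : x ∈ ({x, a} : Finset α)) (by simp)
      · rintro ⟨hne2, heE⟩
        refine ⟨heE, ?_⟩
        rw [disjoint_left]
        intro v hv hv2
        rw [mem_singleton] at hv2
        subst hv2
        exact hne2 (hx e heE hv)
    rw [h4]
    exact card_erase_add_one hxa
  · intro k
    have h5 := h1 α V E x {x, a} k hG (by simp) hsub (fun e he hxe => by rw [hx e he hxe])
    rw [add_comm]
    exact h5

end Pool.Agent.helper41.CL
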